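import Pool.Agent.Helper51.BW.Spec

/-!
# Part QL2 of the swarm BW (MP_ef0d6f_pr)
-/

open MeasureTheory Filter Topology

namespace Pool.Agent.Helper78.BW.QL2

open Pool.Agent.Helper51.BW

theorem trace_symm {d : ℕ} {Y : ℕ → V d} {x y : V d} (h : Trace Y x y) : Trace Y y x := by
  obtain ⟨n, h | h⟩ := h
  · exact ⟨n, Or.inr h⟩
  · exact ⟨n, Or.inl h⟩

theorem cute {d : ℕ} {S : ℕ → V d} {b : ℕ} (hb : IsCut S b) {x y : V d} (h : Trace S x y)
    (hx : ∃ t ≤ b, S t = x) (hy : ∃ t, b < t ∧ S t = y) : x = S b ∧ y = S (b + 1) := by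
  obtain ⟨t, ht, rfl⟩ := hx
  obtain ⟨t', ht', rfl⟩ := hy
  obtain ⟨n, ⟨h1, h2⟩ | ⟨h1, h2⟩⟩ := h
  · have hn : n ≤ b := by
      by_contra hlt
      exact hb t n ht (by omega) h1.symm
    have hn' : b < n + 1 := by
      by_contra hlt
      exact hb (n + 1) t' (by omega) ht' h2
    have hnb : n = b := by omega
    subst hnb
    exact ⟨h1.symm, h2.symm⟩
  · exfalso
    have hn : n + 1 ≤ b := by
      by_contra hlt
      exact hb t (n + 1) ht (by omega) h2.symm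
    exact hb n t' (by omega) ht' h1

/-- traces are nested -/
theorem nest {d : ℕ} {Ω : Type} {X : ℕ → ℕ → Ω → V d} {ω : Ω} {i : ℕ}
    (h : ∀ m < i, ∀ n, Trace (fun s => X m s ω) (X (m + 1) n ω) (X (m + 1) (n + 1) ω)) :
    ∀ m ≤ i, ∀ x y, Trace (fun s => X m s ω) x y → Trace (fun s => X 0 s ω) x y := by
  intro m
  induction m with
  | zero => intro _ x y hxy; exact hxy
  | succ m ih =>
    intro hm x y hxy
    apply ih (by omega)
    obtain ⟨n, ⟨h1, h2⟩ | ⟨h1, h2⟩⟩ := hxy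
    · have h3 := h m (by omega) n
      simp only at h1 h2
      rw [h1, h2] at h3
      exact h3
    · have h3 := trace_symm (h m (by omega) n)
      simp only at h1 h2
      rw [h1, h2] at h3
      exact h3

theorem meas_trace {Ω : Type} {mΩ : MeasurableSpace Ω} {d : ℕ} {Y : ℕ → Ω → V d}
    {f g : Ω → V d} (hY : ∀ n, Measurable (Y n)) (hf : Measurable f) (hg : Measurable g) :
    MeasurableSet {ω | Trace (fun n => Y n ω) (f ω) (g ω)} := by
  have : {ω | Trace (fun n => Y n ω) (f ω) (g ω)} = ⋃ n,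
      (({ω | Y n ω = f ω} ∩ {ω | Y (n + 1) ω = g ω}) ∪
        ({ω | Y n ω = g ω} ∩ {ω | Y (n + 1) ω = f ω})) := by
    ext ω; simp [Trace]
  rw [this]
  refine MeasurableSet.iUnion fun n => ?_
  refine MeasurableSet.union (MeasurableSet.inter ?_ ?_) (MeasurableSet.inter ?_ ?_)
  · exact measurableSet_eq_fun (hY n) hf
  · exact measurableSet_eq_fun (hY (n + 1)) hg
  · exact measurableSet_eq_fun (hY n) hg
  · exact measurableSet_eq_fun (hY (n + 1)) hf

theorem meas_path {Ω : Type} {mΩ : MeasurableSpace Ω} {d : ℕ} {Y : ℕ → Ω → V d}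
    (hY : ∀ n, Measurable (Y n)) : MeasurableSet {ω | PathHyp (fun n => Y n ω)} := by
  have : {ω | PathHyp (fun n => Y n ω)} = {ω | Y 0 ω = 0} ∩
        ⋂ t, ⋃ e : D d, {ω | Y (t + 1) ω = Y t ω + dir e} := by
    ext ω; simp [PathHyp]
  rw [this]
  refine MeasurableSet.inter ?_ ?_
  · exact measurableSet_eq_fun (hY 0) measurable_const
  · refine MeasurableSet.iInter fun t => MeasurableSet.iUnion fun e => ?_
    exact measurableSet_eq_fun (hY (t + 1))
      ((measurable_of_countable (fun z : V d => z + dir e)).comp (hY t))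

theorem meas_hit {Ω : Type} {mΩ : MeasurableSpace Ω} {d : ℕ} {Y : ℕ → Ω → V d}
    (hY : ∀ n, Measurable (Y n)) (x : V d) (B : Finset (V d)) :
    MeasurableSet {ω | Hit (fun n => Y n ω) x B} := by
  have : {ω | Hit (fun n => Y n ω) x B} = ⋃ n, ({ω | Y n ω = x} ∩
      ⋂ s, ⋂ (_ : s ≤ n), (Y s) ⁻¹' {z | z ∉ B}) := by
    ext ω; simp [Hit]
  rw [this]
  refine MeasurableSet.iUnion fun n => ?_
  refine MeasurableSet.inter ?_ ?_
  · exact measurableSet_eq_fun (hY n) measurable_const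
  · refine MeasurableSet.iInter fun s => MeasurableSet.iInter fun _ => ?_
    exact hY s (Set.to_countable _).measurableSet

theorem sig0_le_past {d : ℕ} {Ω : Type} (X : ℕ → ℕ → Ω → V d) {i : ℕ} (hi : 1 ≤ i) :
    sig0 X ≤ past X i 0 := by
  unfold sig0 past
  refine le_trans ?_ le_sup_left
  exact le_iSup₂_of_le (f := fun (m : ℕ) (_ : m < i) =>
    ⨆ s : ℕ, MeasurableSpace.comap (X m s) inferInstance) 0 (by omega) le_rfl

theorem meas_past {d : ℕ} {Ω : Type} (X : ℕ → ℕ → Ω → V d) {i m : ℕ} (hm : m < i) (s : ℕ) :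
    @Measurable _ _ (past X i 0) inferInstance (X m s) := by
  apply measurable_iff_comap_le.mpr
  unfold past
  refine le_trans ?_ le_sup_left
  refine le_iSup₂_of_le (f := fun (m : ℕ) (_ : m < i) =>
    ⨆ s : ℕ, MeasurableSpace.comap (X m s) inferInstance) m hm ?_
  exact le_iSup (fun s => MeasurableSpace.comap (X m s) inferInstance) s

theorem theta_mono {i : ℕ} {θ : ℕ → ℝ} (h : ∀ m < i, θ (m + 1) ≤ θ m) :
    ∀ m ≤ i, θ m ≤ θ 0 := by
  intro m
  induction m with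
  | zero => intro _; exact le_rfl
  | succ m ih => intro hm; exact (h m (by omega)).trans (ih (by omega))

open Classical in
/-- deterministic part: the certificate on the good environments -/
theorem cert (hSTG : S_STG2b) (hCONN : S_CONN) {d : ℕ} {Ω : Type}
    (p : ℕ → D d → ℝ) (X : ℕ → ℕ → Ω → V d)
    (hsum : ∀ i, ∑ e, p i e = 1) (i' : ℕ) (s : ℕ → V d) (a j k1 N : ℕ) (u : Fin d → ℝ)
    (θ : ℕ → ℝ) (Γ ε pm : ℝ) (K : Finset ℕ) (l : ℕ) (ω : Ω)
    (haj : a < j) (hpm : 0 < pm) (hp : ∀ m ≤ i' + 1, ∀ e, pm ≤ p m e)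
    (hk1 : k1 ∈ K) (hK : ∀ k ∈ K, 1 ≤ k ∧ j + k + 1 ≤ N)
    (hs : ∀ t ≤ N, X 0 t ω = s t) (hca : IsCut (fun n => X 0 n ω) a)
    (hcK : ∀ k ∈ K, IsCut (fun n => X 0 n ω) (j + k))
    (hθ0 : ∀ t, a ≤ t → t ≤ j → θ 0 ≤ ip u (s t - s (j + k1)))
    (hθp : ∀ m ≤ i' + 1, 0 < θ m) (hθm : ∀ m < i' + 1, θ (m + 1) ≤ θ m)
    (hΓ : ∀ t t', a ≤ t → t ≤ j + k1 → a ≤ t' → t' ≤ j + k1 →
      θ i' ≤ ip u (s t - s (j + k1)) → ip u (s t' - s (j + k1)) < θ (i' + 1) →
      ip (lhat (p (i' + 1))) (s t') + Γ ≤ ip (lhat (p (i' + 1))) (s t))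
    (hε : (((j + k1 : ℕ) : ℝ) - a + 1) ^ 2 * Real.sqrt (Real.exp (-Γ) / pm) ≤ ε)
    (hl : 1 ≤ l)
    (hlK : (l : ℝ) - 1 ≤ pm / 4 * ∑ k ∈ K, Real.exp (ip (lhat (p (i' + 1))) (s j - s (j + k))))
    (hpath : PathHyp (fun n => X 0 n ω))
    (h0 : X i' 0 ω = 0)
    (hnest : ∀ x y, Trace (fun s => X i' s ω) x y → Trace (fun s => X 0 s ω) x y)
    (hhit : Hit (fun n => X i' n ω) (s j) (lowSet s a (j + k1) u (θ i'))) :
    ∃ (q : V d → ℝ) (ρ : ℝ), 0 ≤ ρ ∧ (∀ z, 0 ≤ q z ∧ q z ≤ 1) ∧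
    (∀ z ∈ ({s (j + K.max' ⟨k1, hk1⟩ + 1)} : Finset (V d)), q z = 1) ∧ q (s j) = 0 ∧
    (∀ z ∈ (Finset.range (j + K.max' ⟨k1, hk1⟩ + 1)).image s, ∀ e,
      z + dir e ∉ (Finset.range (j + K.max' ⟨k1, hk1⟩ + 1)).image s →
      z + dir e ∉ ({s (j + K.max' ⟨k1, hk1⟩ + 1)} : Finset (V d)) →
      trans (p (i' + 1)) (env X (i' + 1) ω) z e = 0) ∧
    (∀ z ∈ (Finset.range (j + K.max' ⟨k1, hk1⟩ + 1)).image s, z ≠ s j →
      ∑ e, trans (p (i' + 1)) (env X (i' + 1) ω) z e * q (z + dir e) ≤ q z) ∧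
    ∑ e, trans (p (i' + 1)) (env X (i' + 1) ω) (s j) e * q (s j + dir e) ≤ ρ ∧
    q 0 + ρ * ((l : ℝ) - 1) ≤ ε + 1 / 4 := by
  set kM := K.max' ⟨k1, hk1⟩ with hkM
  have hkMK : kM ∈ K := Finset.max'_mem _ _
  have hkle : ∀ k ∈ K, k ≤ kM := fun k hk => Finset.le_max' _ _ hk
  have hMN : j + kM + 1 ≤ N := (hK kM hkMK).2
  have hk1N : j + k1 + 1 ≤ N := (hK k1 hk1).2
  have hk1M : k1 ≤ kM := hkle k1 hk1
  have hk1pos : 1 ≤ k1 := (hK k1 hk1).1
  have hθle : θ i' ≤ θ 0 := theta_mono hθm i' (by omega)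
  set S : ℕ → V d := fun n => X 0 n ω with hS
  have hSs : ∀ t ≤ N, S t = s t := hs
  set B1 := lowSet s a (j + k1) u (θ i') with hB1
  set B := lowSet s a (j + k1) u (θ (i' + 1)) with hB
  have memlow : ∀ θ' z, z ∈ lowSet s a (j + k1) u θ' ↔
      (∃ t, a < t ∧ t ≤ j + k1 ∧ s t = z) ∧ ip u (z - s (j + k1)) < θ' := by
    intro θ' z
    unfold lowSet
    simp only [Finset.mem_filter, Finset.mem_image, Finset.mem_Ioc, and_assoc]
  have hBmem : ∀ z ∈ B, ∃ t, a < t ∧ t ≤ j + k1 ∧ S t = z := by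
    intro z hz
    obtain ⟨⟨t, h1, h2, h3⟩, _⟩ := (memlow _ z).1 hz
    exact ⟨t, h1, h2, by rw [hSs t (by omega)]; exact h3⟩
  have hB1mem : ∀ z ∈ B1, ∃ t, a < t ∧ t ≤ j + k1 ∧ S t = z := by
    intro z hz
    obtain ⟨⟨t, h1, h2, h3⟩, _⟩ := (memlow _ z).1 hz
    exact ⟨t, h1, h2, by rw [hSs t (by omega)]; exact h3⟩
  have hBB1 : ∀ z ∈ B, z ∈ B1 := by
    intro z hz
    obtain ⟨h1, h2⟩ := (memlow _ z).1 hz
    exact (memlow _ z).2 ⟨h1, h2.trans_le (hθm i' (by omega))⟩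
  have hip0 : ip u (s (j + k1) - s (j + k1)) = 0 := by simp [ip]
  have hSbB : S (j + k1) ∈ B := by
    rw [hSs _ (by omega)]
    refine (memlow _ _).2 ⟨⟨j + k1, by omega, le_rfl, rfl⟩, ?_⟩
    rw [hip0]; exact hθp _ le_rfl
  have hSbB1 : S (j + k1) ∈ B1 := hBB1 _ hSbB
  set Kf : Finset (V d) := ((Finset.Icc a (j + k1)).image s).filter (fun z => z ∉ B1) with hKf
  have memK : ∀ z, z ∈ Kf ↔ (∃ t, a ≤ t ∧ t ≤ j + k1 ∧ s t = z) ∧ z ∉ B1 := by
    intro z
    simp only [hKf, Finset.mem_filter, Finset.mem_image, Finset.mem_Icc, and_assoc]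
  have hcb : IsCut S (j + k1) := hcK k1 hk1
  -- connectivity
  obtain ⟨n, hn1, hn2⟩ := hhit
  have hconn := hCONN d S (fun n => X i' n ω) a j (j + k1) n B1 hpath haj (by omega) hca hcb h0
    (fun m => hnest _ _ ⟨m, Or.inl ⟨rfl, rfl⟩⟩) hB1mem hSbB1 (by rw [hSs j (by omega)]; exact hn1)
    hn2
  have hconn' : Relation.ReflTransGen (fun z z' => z ∈ Kf ∧ z' ∈ Kf ∧
      Trace (fun n => X i' n ω) z z') (S a) (S j) := by
    refine Relation.ReflTransGen.mono ?_ _ _ hconn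
    rintro z z' ⟨⟨⟨t, h1, h2, h3⟩, h4⟩, ⟨⟨t', h1', h2', h3'⟩, h4'⟩, h5⟩
    refine ⟨(memK z).2 ⟨⟨t, h1, h2, ?_⟩, h4⟩, (memK z').2 ⟨⟨t', h1', h2', ?_⟩, h4'⟩, h5⟩
    · rw [← hSs t (by omega)]; exact h3
    · rw [← hSs t' (by omega)]; exact h3'
  have hKhigh : ∀ z ∈ Kf, ∃ t, a ≤ t ∧ t ≤ j + k1 ∧ s t = z ∧
      θ i' ≤ ip u (z - s (j + k1)) := by
    intro z hz
    obtain ⟨⟨t, h1, h2, h3⟩, h4⟩ := (memK z).1 hz
    refine ⟨t, h1, h2, h3, ?_⟩
    rcases h1.eq_or_lt with h5 | h5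
    · rw [← h3, ← h5]
      exact hθle.trans (hθ0 a le_rfl haj.le)
    · by_contra hlt
      push Not at hlt
      exact h4 ((memlow _ z).2 ⟨⟨t, h5, h2, h3⟩, hlt⟩)
  have hSaK : S a ∈ Kf := by
    rw [hSs a (by omega)]
    refine (memK _).2 ⟨⟨a, le_rfl, by omega, rfl⟩, ?_⟩
    intro hmem
    obtain ⟨⟨t, h1, h2, h3⟩, _⟩ := (memlow _ _).1 hmem
    refine hca a t le_rfl h1 ?_
    change S a = S t
    rw [hSs a (by omega), hSs t (by omega), h3]
  have hSjK : S j ∈ Kf := by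
    rw [hSs j (by omega)]
    refine (memK _).2 ⟨⟨j, by omega, by omega, rfl⟩, ?_⟩
    intro hmem
    obtain ⟨_, h2⟩ := (memlow _ _).1 hmem
    have h3 := hθ0 j haj.le le_rfl
    linarith
  obtain ⟨q, ρ, hρ, hq01, hqM, hqj, hq0, hqt, hqx, hρs⟩ := hSTG d (p (i' + 1)) pm Γ S
    (Trace (fun n => X i' n ω)) a j (j + k1) (j + kM) (K.image (fun k => j + k)) Kf B hpm
    (hp (i' + 1) le_rfl) (hsum _) hpath hnest (fun x y h => trace_symm h) haj hca
    (Finset.mem_image_of_mem _ hk1) (Finset.mem_image_of_mem _ hkMK)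
    (by
      intro b hb
      obtain ⟨k, hk, rfl⟩ := Finset.mem_image.1 hb
      exact ⟨by have := (hK k hk).1; omega, by have := hkle k hk; omega, hcK k hk⟩)
    hBmem hSbB
    (by
      intro z hz
      obtain ⟨t, h1, h2, h3, _⟩ := hKhigh z hz
      exact ⟨t, h1, h2, by rw [hSs t (by omega)]; exact h3⟩)
    (by
      rw [Finset.disjoint_left]
      intro z hz hz'
      exact ((memK z).1 hz).2 (hBB1 z hz'))
    hSaK hSjK hconn'
    (by
      intro z hz z' hz'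
      obtain ⟨t, h1, h2, h3, h4⟩ := hKhigh z hz
      obtain ⟨⟨t', h1', h2', h3'⟩, h4'⟩ := (memlow _ z').1 hz'
      have h5 := hΓ t t' h1 h2 h1'.le h2' (by rw [h3]; exact h4) (by rw [h3']; exact h4')
      rw [h3, h3'] at h5
      exact h5)
  have henv : env X (i' + 1) ω = Trace (fun n => X i' n ω) := rfl
  have hsM : S (j + kM + 1) = s (j + kM + 1) := hSs _ hMN
  have hsj : S j = s j := hSs _ (by omega)
  refine ⟨q, ρ, hρ, hq01, ?_, ?_, ?_, ?_, ?_, ?_⟩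
  · intro z hz
    rw [Finset.mem_singleton] at hz
    rw [hz, ← hsM]
    exact hqM
  · rw [← hsj]; exact hqj
  · intro z hz e h1 h2
    obtain ⟨t, ht, rfl⟩ := Finset.mem_image.1 hz
    rw [Finset.mem_range] at ht
    unfold Pool.Agent.Helper51.BW.trans
    rw [if_neg]
    intro hG
    rw [henv] at hG
    have hT := hnest _ _ hG
    have hex : ∃ t', S t' = s t + dir e := by
      obtain ⟨n, ⟨_, h4⟩ | ⟨h3, _⟩⟩ := hT
      · exact ⟨n + 1, h4⟩
      · exact ⟨n, h3⟩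
    obtain ⟨t', ht'⟩ := hex
    rcases Nat.lt_or_ge (j + kM) t' with h5 | h5
    · have h6 := cute (hcK kM hkMK) hT ⟨t, by omega, hSs t (by omega)⟩ ⟨t', h5, ht'⟩
      apply h2
      rw [Finset.mem_singleton, h6.2]
      exact hsM
    · apply h1
      rw [← ht', hSs t' (by omega)]
      exact Finset.mem_image_of_mem _ (Finset.mem_range.2 (by omega))
  · intro z hz hzj
    obtain ⟨t, ht, rfl⟩ := Finset.mem_image.1 hz
    rw [Finset.mem_range] at ht
    have h3 := hqt t (by omega)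
    rw [hSs t (by omega), hsj] at h3
    rw [henv]
    exact h3 hzj
  · rw [henv, ← hsj]; exact hqx
  · have h1 : q 0 ≤ ε := hq0.trans hε
    have h2 : ∑ b ∈ K.image (fun k => j + k), Real.exp (ip (lhat (p (i' + 1))) (S j - S b)) =
        ∑ k ∈ K, Real.exp (ip (lhat (p (i' + 1))) (s j - s (j + k))) := by
      rw [Finset.sum_image (fun x _ y _ h => by simpa using h)]
      refine Finset.sum_congr rfl fun k hk => ?_
      rw [hsj, hSs (j + k) (by have := (hK k hk).2; omega)]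
    rw [h2] at hρs
    have h3 : ρ * ((l : ℝ) - 1) ≤
        ρ * (pm / 4 * ∑ k ∈ K, Real.exp (ip (lhat (p (i' + 1))) (s j - s (j + k)))) :=
      mul_le_mul_of_nonneg_left hlK hρ
    nlinarith

theorem main (hONE : S_ONE) (hSTG : S_STG2b) (hCONN : S_CONN) (hCROSS : S_CROSS)
    (hHITM : S_HITM) : S_QL2 := by
  classical
  intro d Ω _ μ _ p X hp0 hsum hX i hi hreg s a j k1 N u θ Γ ε pm K E l haj hpm hp hE hk1 hK hEp
    hθ0 hθp hθm hΓ hε hiε hl hlK
  obtain ⟨i', rfl⟩ : ∃ i', i = i' + 1 := ⟨i - 1, by omega⟩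
  rcases Set.eq_empty_or_nonempty E with hE0 | ⟨ω0, hω0⟩
  · rw [hE0]; simp
  -- data
  set kM := K.max' ⟨k1, hk1⟩ with hkM
  have hkMK : kM ∈ K := Finset.max'_mem _ _
  have hkle : ∀ k ∈ K, k ≤ kM := fun k hk => Finset.le_max' _ _ hk
  have hMN : j + kM + 1 ≤ N := (hK kM hkMK).2
  have hk1N : j + k1 + 1 ≤ N := (hK k1 hk1).2
  have hε0 : 0 ≤ ε := le_trans (by positivity) hε
  set F : Finset (V d) := (Finset.range (j + kM + 1)).image s with hF
  set B : Finset (V d) := {s (j + kM + 1)} with hB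
  have hs0 : s 0 = 0 := by
    rw [← (hEp ω0 hω0).1 0 (by omega)]
    exact hX.start 0 ω0
  have h0F : (0 : V d) ∈ F := by
    rw [← hs0]; exact Finset.mem_image_of_mem _ (Finset.mem_range.2 (by omega))
  have hjF : s j ∈ F := Finset.mem_image_of_mem _ (Finset.mem_range.2 (by omega))
  have hFB : Disjoint F B := by
    rw [Finset.disjoint_right]
    intro z hz hz'
    rw [hB, Finset.mem_singleton] at hz
    obtain ⟨t, ht, h1⟩ := Finset.mem_image.1 hz'
    rw [Finset.mem_range] at ht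
    have h2 := (hEp ω0 hω0).2.2 kM hkMK t (j + kM + 1) (by omega) (by omega)
    apply h2
    change X 0 t ω0 = X 0 (j + kM + 1) ω0
    rw [(hEp ω0 hω0).1 t (by omega), (hEp ω0 hω0).1 _ hMN, h1, hz]
  -- the good event
  set Gd : Set Ω := {ω | PathHyp (fun n => X 0 n ω)} ∩
    (⋂ m, ⋂ (_ : m < i'), ⋂ n, {ω | Trace (fun s => X m s ω) (X (m + 1) n ω)
      (X (m + 1) (n + 1) ω)}) with hGd
  set Hi : Set Ω := {ω | Hit (fun n => X i' n ω) (s j) (lowSet s a (j + k1) u (θ i'))} with hHi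
  have hGdm : MeasurableSet[past X (i' + 1) 0] Gd := by
    refine MeasurableSet.inter ?_ ?_
    · exact meas_path (fun n => meas_past X (by omega) n)
    · refine MeasurableSet.iInter fun m => MeasurableSet.iInter fun hm =>
        MeasurableSet.iInter fun n => ?_
      exact meas_trace (fun n => meas_past X (by omega) n) (meas_past X (by omega) n)
        (meas_past X (by omega) (n + 1))
  have hHim : MeasurableSet[past X (i' + 1) 0] Hi :=
    meas_hit (fun n => meas_past X (by omega) n) _ _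
  have hEm : MeasurableSet[past X (i' + 1) 0] E := sig0_le_past X (by omega) _ hE
  set E' : Set Ω := E ∩ (Gd ∩ Hi) with hE'
  have hE'm : MeasurableSet[past X (i' + 1) 0] E' := hEm.inter (hGdm.inter hHim)
  -- apply ONE
  have hone := hONE d Ω μ p X hp0 hsum hX (i' + 1) E' hE'm F B (s j) l (ε + 1 / 4) hl h0F hjF hFB
    (by positivity)
    (by
      rintro ω ⟨hωE, ⟨hω1, hω2⟩, hω3⟩
      have hn : ∀ m < i', ∀ n, Trace (fun s => X m s ω) (X (m + 1) n ω)
          (X (m + 1) (n + 1) ω) := by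
        intro m hm n
        have := Set.mem_iInter.1 (Set.mem_iInter.1 (Set.mem_iInter.1 hω2 m) hm) n
        exact this
      exact cert hSTG hCONN p X hsum i' s a j k1 N u θ Γ ε pm K l ω haj hpm hp hk1 hK
        (hEp ω hωE).1 (hEp ω hωE).2.1 (hEp ω hωE).2.2 hθ0 hθp hθm (hΓ i' (by omega)) hε hl hlK
        hω1 (hX.start i' ω) (nest hn i' le_rfl) hω3)
  -- apply HITM
  have hhit := hHITM d Ω μ p X hp0 hsum hX (i' + 1) hreg s a j (j + k1) u θ Γ ε pm E haj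
    (by omega) hpm hp hE
    (fun ω hω => ⟨fun t ht => (hEp ω hω).1 t (by omega), (hEp ω hω).2.1,
      (hEp ω hω).2.2 k1 hk1⟩) hθ0 hθp hθm hΓ hε i' (by omega)
  -- covering
  have hcover : ∀ᵐ ω ∂μ, ω ∈ E → ω ∈ ((E ∩ {ω | HitsGE (fun n => X (i' + 1) n ω) l (s j)}) ∪
      ((E ∩ {ω | ¬ Hit (fun n => X i' n ω) (s j) (lowSet s a (j + k1) u (θ i'))}) ∪
      (E' ∩ {ω | ∃ n, X (i' + 1) n ω ∈ B ∧ (∀ s < n, X (i' + 1) s ω ∉ B) ∧
        ((Finset.range n).filter (fun t => X (i' + 1) t ω = s j)).card < l}))) := by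
    filter_upwards [hreg] with ω hr hωE
    by_cases h1 : HitsGE (fun n => X (i' + 1) n ω) l (s j)
    · exact Or.inl ⟨hωE, h1⟩
    by_cases h2 : Hit (fun n => X i' n ω) (s j) (lowSet s a (j + k1) u (θ i'))
    swap
    · exact Or.inr (Or.inl ⟨hωE, h2⟩)
    refine Or.inr (Or.inr ⟨⟨hωE, ⟨hr.1 0 (by omega), ?_⟩, h2⟩, ?_⟩)
    · refine Set.mem_iInter.2 fun m => Set.mem_iInter.2 fun hm => Set.mem_iInter.2 fun n => ?_
      exact hr.2.1 m (by omega) n
    · obtain ⟨n, _, hn2, _⟩ := hCROSS d (fun n => X 0 n ω) (fun n => X (i' + 1) n ω) (j + kM)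
        (hr.1 0 (by omega)) ((hEp ω hωE).2.2 kM hkMK) (hX.start _ ω)
        (fun m => nest hr.2.1 (i' + 1) le_rfl _ _ ⟨m, Or.inl ⟨rfl, rfl⟩⟩) hr.2.2
      have hex : ∃ n, X (i' + 1) n ω ∈ B := by
        refine ⟨n + 1, ?_⟩
        rw [hB, Finset.mem_singleton]
        have : X (i' + 1) (n + 1) ω = X 0 (j + kM + 1) ω := hn2
        rw [this]
        exact (hEp ω hωE).1 _ hMN
      refine ⟨Nat.find hex, Nat.find_spec hex, fun t ht => Nat.find_min hex ht, ?_⟩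
      by_contra hge
      push Not at hge
      exact h1 ⟨Nat.find hex, hge⟩
  have hE'E : μ E' ≤ μ E := measure_mono Set.inter_subset_left
  have hbound : μ E ≤ μ (E ∩ {ω | HitsGE (fun n => X (i' + 1) n ω) l (s j)}) +
      (ENNReal.ofReal (i' * ε) * μ E + ENNReal.ofReal (ε + 1 / 4) * μ E) := by
    calc μ E ≤ μ ((E ∩ {ω | HitsGE (fun n => X (i' + 1) n ω) l (s j)}) ∪
      ((E ∩ {ω | ¬ Hit (fun n => X i' n ω) (s j) (lowSet s a (j + k1) u (θ i'))}) ∪
      (E' ∩ {ω | ∃ n, X (i' + 1) n ω ∈ B ∧ (∀ s < n, X (i' + 1) s ω ∉ B) ∧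
        ((Finset.range n).filter (fun t => X (i' + 1) t ω = s j)).card < l}))) :=
          measure_mono_ae hcover
      _ ≤ _ := measure_union_le _ _
      _ ≤ _ := by
          gcongr
          refine (measure_union_le _ _).trans (add_le_add hhit (hone.trans ?_))
          gcongr
  have hhalf : ENNReal.ofReal (i' * ε) * μ E + ENNReal.ofReal (ε + 1 / 4) * μ E ≤ μ E / 2 := by
    rw [← add_mul, ← ENNReal.ofReal_add (by positivity) (by positivity)]
    have h1 : (i' : ℝ) * ε + (ε + 1 / 4) ≤ 1 / 2 := by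
      push_cast at hiε
      linarith
    calc ENNReal.ofReal ((i' : ℝ) * ε + (ε + 1 / 4)) * μ E ≤ ENNReal.ofReal (1 / 2) * μ E := by
          gcongr
      _ = μ E / 2 := by
          rw [ENNReal.ofReal_div_of_pos (by norm_num), ENNReal.ofReal_one]
          simp [ENNReal.div_eq_inv_mul]
  have hfin : μ E / 2 ≠ ⊤ := ne_top_of_le_ne_top (measure_ne_top μ E) ENNReal.half_le_self
  have h1 : μ E / 2 + μ E / 2 ≤
      μ (E ∩ {ω | HitsGE (fun n => X (i' + 1) n ω) l (s j)}) + μ E / 2 := by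
    rw [ENNReal.add_halves]
    exact hbound.trans (by gcongr)
  exact (ENNReal.add_le_add_iff_right hfin).1 h1

end Pool.Agent.Helper78.BW.QL2
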